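import Pool.Agent.Helper5.CK.Defs
import Pool.Agent.Helper24.Br.Inj

/-!
# CK V8: normalisation

A univalent function on a punctured disc with a simple pole at `0` is, after a dilation and
division by the residue, of the form `1 / z + γ z` with `Ext γ`.
-/

set_option autoImplicit false

namespace Pool.Agent.Helper81.CK

open Complex Metric Set Filter Topology
open scoped ComplexConjugate
open Pool.Agent.Helper39.Area

theorem normalise {f : ℂ → ℂ} {r : ℝ} {c : ℂ} (hr : 0 < r) (_hr1 : r ≤ 1)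
    (hd : DifferentiableOn ℂ f (ball 0 r \ {0})) (hinj : InjOn f (ball 0 r \ {0})) (hc : c ≠ 0)
    (hlim : Tendsto (fun z => z * f z) (𝓝[≠] 0) (𝓝 c)) :
    ∃ γ : ℂ → ℂ, Ext γ ∧ ∀ z ∈ ball (0 : ℂ) 1, z ≠ 0 → z⁻¹ + γ z = (r / c) * f (r * z) := by
  have hr0 : (r : ℂ) ≠ 0 := by exact_mod_cast hr.ne'
  set g : ℂ → ℂ := fun z => (r / c) * f (r * z) with hg
  have hmaps : ∀ z ∈ ball (0 : ℂ) 1 \ {0}, (r : ℂ) * z ∈ ball (0 : ℂ) r \ {0} := by
    intro z hz
    refine ⟨?_, mul_ne_zero hr0 hz.2⟩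
    rw [mem_ball_zero_iff, norm_mul, Complex.norm_real, Real.norm_of_nonneg hr.le]
    have := mem_ball_zero_iff.1 hz.1
    nlinarith
  have hUo : IsOpen (ball (0 : ℂ) 1 \ {0}) := isOpen_ball.sdiff isClosed_singleton
  have hgd : DifferentiableOn ℂ g (ball 0 1 \ {0}) := by
    refine DifferentiableOn.const_mul ?_ _
    exact hd.comp (by fun_prop) hmaps
  have hginj : InjOn g (ball 0 1 \ {0}) := by
    intro z hz w hw h
    have h1 : f (r * z) = f (r * w) := mul_left_cancel₀ (div_ne_zero hr0 hc) h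
    exact mul_left_cancel₀ hr0 (hinj (hmaps z hz) (hmaps w hw) h1)
  have hglim : Tendsto (fun z => z * g z) (𝓝[≠] 0) (𝓝 1) := by
    have h1 : Tendsto (fun z : ℂ => (r : ℂ) * z) (𝓝[≠] 0) (𝓝[≠] 0) := by
      refine tendsto_nhdsWithin_of_tendsto_nhds_of_eventually_within _ ?_ ?_
      · have : Tendsto (fun z : ℂ => (r : ℂ) * z) (𝓝 0) (𝓝 0) := by
          have h2 : Continuous fun z : ℂ => (r : ℂ) * z := by fun_prop
          simpa using h2.tendsto 0
        exact this.mono_left nhdsWithin_le_nhds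
      · filter_upwards [self_mem_nhdsWithin] with z hz
        exact mul_ne_zero hr0 hz
    have h2 := (hlim.comp h1).const_mul c⁻¹
    rw [inv_mul_cancel₀ hc] at h2
    refine h2.congr fun z => ?_
    simp only [Function.comp_apply, hg]
    field_simp
  set γ0 : ℂ → ℂ := fun z => g z - z⁻¹ with hγ0
  have hγd : DifferentiableOn ℂ γ0 (ball 0 1 \ {0}) := by
    refine hgd.sub ?_
    intro z hz
    have hz' : z ≠ 0 := hz.2
    exact (hasDerivAt_inv hz').differentiableAt.differentiableWithinAt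
  have ho : (fun z => γ0 z - γ0 0) =o[𝓝[≠] 0] fun z : ℂ => (z - 0)⁻¹ := by
    rw [Asymptotics.isLittleO_iff_tendsto']
    · have h1 : Tendsto (fun z : ℂ => z * g z - 1 - z * γ0 0) (𝓝[≠] 0) (𝓝 (1 - 1 - 0 * γ0 0)) := by
        refine (hglim.sub_const 1).sub ?_
        refine Tendsto.mul_const _ ?_
        exact tendsto_id.mono_left nhdsWithin_le_nhds
      rw [sub_self, zero_mul, sub_zero] at h1
      refine h1.congr' ?_
      filter_upwards [self_mem_nhdsWithin] with z hz
      have hz' : z ≠ 0 := hz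
      simp only [hγ0, sub_zero]
      field_simp
    · filter_upwards [self_mem_nhdsWithin] with z hz h
      have hz' : z ≠ 0 := hz
      rw [sub_zero] at h
      exact absurd h (inv_ne_zero hz')
  have hext := Complex.differentiableOn_update_limUnder_of_isLittleO
    (isOpen_ball.mem_nhds (mem_ball_self one_pos) : ball (0 : ℂ) 1 ∈ 𝓝 0) hγd ho
  set γ : ℂ → ℂ := Function.update γ0 0 (limUnder (𝓝[≠] 0) γ0) with hγ
  have hγeq : ∀ z, z ≠ 0 → z⁻¹ + γ z = g z := by
    intro z hz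
    rw [hγ, Function.update_of_ne hz]
    simp only [hγ0]
    ring
  refine ⟨γ, ⟨hext, ?_, ?_⟩, fun z _ hz => hγeq z hz⟩
  · intro ζ ω hζ hω hζ0 hω0 h
    rw [hγeq ζ hζ0, hγeq ω hω0] at h
    exact hginj ⟨hζ, hζ0⟩ ⟨hω, hω0⟩ h
  · intro ζ hζ
    by_cases h0 : ζ = 0
    · rw [h0]
      simp
    · intro h1
      have h2 : HasDerivAt g (-(ζ ^ 2)⁻¹ + deriv γ ζ) ζ := by
        have h3 : HasDerivAt (fun z => z⁻¹ + γ z) (-(ζ ^ 2)⁻¹ + deriv γ ζ) ζ :=
          (hasDerivAt_inv h0).add
            ((hext.differentiableAt (isOpen_ball.mem_nhds hζ)).hasDerivAt)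
        refine h3.congr_of_eventuallyEq ?_
        filter_upwards [isOpen_ne.mem_nhds h0] with z hz
        exact (hγeq z hz).symm
      have h4 := Pool.Agent.Helper24.Br.deriv_ne_of_inj hUo hgd hginj (z := ζ) ⟨hζ, h0⟩
      rw [h2.deriv] at h4
      apply h4
      have h5 : deriv γ ζ = (ζ ^ 2)⁻¹ := by
        have h6 : ζ ^ 2 ≠ 0 := pow_ne_zero 2 h0
        field_simp
        linear_combination -h1
      rw [h5]
      ring

end Pool.Agent.Helper81.CK
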