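import Mathlib

/-!
# Outer part and reflected outer part of a function near a circle

`outer z0 ρ lam z = -(1/2πi) ∮_{|s-z0|=ρ} lam(s)/(s-z) ds` for `|z - z0| > ρ`, and
`outerR z0 ρ lam z = conj (outer z0 ρ lam (1 / conj z))` (`0` at `z = 0`).
-/

set_option autoImplicit false

namespace Pool.Agent.Helper81.CK

open Complex Metric Set Filter Topology MeasureTheory
open scoped Real ComplexConjugate Interval

/-- differentiation of a circle integral with respect to a parameter -/
theorem hasDerivAt_param {z0 : ℂ} {ρ : ℝ} {U : Set ℂ} (hU : IsOpen U) (k k' : ℂ → ℂ → ℂ)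
    (hk : ∀ z ∈ U, ContinuousOn (k z) (sphere z0 |ρ|))
    (hk' : ContinuousOn (fun p : ℂ × ℂ => k' p.1 p.2) (U ×ˢ sphere z0 |ρ|))
    (hd : ∀ z ∈ U, ∀ s ∈ sphere z0 |ρ|, HasDerivAt (fun z => k z s) (k' z s) z) {z : ℂ}
    (hz : z ∈ U) :
    HasDerivAt (fun z => ∮ s in C(z0, ρ), k z s) (∮ s in C(z0, ρ), k' z s) z := by
  obtain ⟨r, hr, hrU⟩ := Metric.isOpen_iff.1 hU z hz
  have hcb : closedBall z (r / 2) ⊆ U :=
    (closedBall_subset_ball (by linarith)).trans hrU
  have hcomp : IsCompact (closedBall z (r / 2) ×ˢ sphere z0 |ρ|) :=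
    (isCompact_closedBall z (r / 2)).prod (isCompact_sphere z0 |ρ|)
  obtain ⟨C, hC⟩ := hcomp.exists_bound_of_continuousOn
    (hk'.mono (prod_mono_left hcb))
  have hcm : Continuous (circleMap z0 ρ) := continuous_circleMap z0 ρ
  have hcd : Continuous (deriv (circleMap z0 ρ)) := by
    have : deriv (circleMap z0 ρ) = fun θ => circleMap 0 ρ θ * I := by
      funext θ
      exact deriv_circleMap z0 ρ θ
    rw [this]
    exact (continuous_circleMap 0 ρ).mul continuous_const
  have hms : ∀ θ, circleMap z0 ρ θ ∈ sphere z0 |ρ| := fun θ => circleMap_mem_sphere' z0 ρ θ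
  have hFc : ∀ x ∈ U, Continuous fun θ => deriv (circleMap z0 ρ) θ • k x (circleMap z0 ρ θ) := by
    intro x hx
    exact hcd.smul ((hk x hx).comp_continuous hcm hms)
  have hF'c : ∀ x ∈ U,
      Continuous fun θ => deriv (circleMap z0 ρ) θ • k' x (circleMap z0 ρ θ) := by
    intro x hx
    refine hcd.smul ?_
    exact hk'.comp_continuous (continuous_const.prodMk hcm) fun θ => ⟨hx, hms θ⟩
  have hkey := intervalIntegral.hasDerivAt_integral_of_dominated_loc_of_deriv_le
    (μ := volume) (a := 0) (b := 2 * π)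
    (F := fun x θ => deriv (circleMap z0 ρ) θ • k x (circleMap z0 ρ θ))
    (F' := fun x θ => deriv (circleMap z0 ρ) θ • k' x (circleMap z0 ρ θ))
    (x₀ := z) (s := ball z (r / 2)) (bound := fun _ => |ρ| * C)
    (ball_mem_nhds z (by linarith))
    (by
      filter_upwards [hU.mem_nhds hz] with x hx
      exact (hFc x hx).aestronglyMeasurable)
    ((hFc z hz).intervalIntegrable _ _)
    ((hF'c z hz).aestronglyMeasurable)
    (by
      refine Eventually.of_forall fun θ _ x hx => ?_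
      rw [norm_smul]
      have h1 : ‖deriv (circleMap z0 ρ) θ‖ = |ρ| := by
        rw [deriv_circleMap, norm_mul, Complex.norm_I, mul_one, norm_circleMap_zero]
      rw [h1]
      exact mul_le_mul_of_nonneg_left
        (hC (x, circleMap z0 ρ θ) ⟨ball_subset_closedBall hx, hms θ⟩) (abs_nonneg ρ))
    (intervalIntegrable_const)
    (by
      refine Eventually.of_forall fun θ _ x hx => ?_
      exact HasDerivAt.const_smul (deriv (circleMap z0 ρ) θ)
        (hd x (hcb (ball_subset_closedBall hx)) _ (hms θ)))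
  exact hkey.2

/-- the outer part -/
noncomputable def outer (z0 : ℂ) (ρ : ℝ) (lam : ℂ → ℂ) (z : ℂ) : ℂ :=
  -((2 * π * I : ℂ)⁻¹ * ∮ s in C(z0, ρ), lam s * (s - z)⁻¹)

/-- the reflected outer part -/
noncomputable def outerR (z0 : ℂ) (ρ : ℝ) (lam : ℂ → ℂ) (z : ℂ) : ℂ :=
  conj (-((2 * π * I : ℂ)⁻¹ * ∮ s in C(z0, ρ), lam s * (conj z * (s * conj z - 1)⁻¹)))

section

variable {z0 : ℂ} {ρ : ℝ} {lam mu : ℂ → ℂ}

theorem twoPiI_ne : (2 * π * I : ℂ) ≠ 0 := by
  simp [Real.pi_ne_zero]

/-- the kernel is continuous on the circle -/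
theorem cont_kernel (hlam : ContinuousOn lam (sphere z0 ρ)) {z : ℂ}
    (hz : z ∉ closedBall z0 ρ) : ContinuousOn (fun s => lam s * (s - z)⁻¹) (sphere z0 ρ) := by
  refine hlam.mul (ContinuousOn.inv₀ (by fun_prop) ?_)
  intro s hs h
  rw [sub_eq_zero] at h
  exact hz (h ▸ sphere_subset_closedBall hs)

theorem outer_congr (hρ : 0 ≤ ρ) (h : EqOn lam mu (sphere z0 ρ)) (z : ℂ) :
    outer z0 ρ lam z = outer z0 ρ mu z := by
  unfold outer
  rw [circleIntegral.integral_congr hρ (g := fun s => mu s * (s - z)⁻¹)]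
  intro s hs
  simp only [h hs]

theorem outer_add (hρ : 0 ≤ ρ) (h1 : ContinuousOn lam (sphere z0 ρ))
    (h2 : ContinuousOn mu (sphere z0 ρ)) {z : ℂ} (hz : z ∉ closedBall z0 ρ) :
    outer z0 ρ (fun s => lam s + mu s) z = outer z0 ρ lam z + outer z0 ρ mu z := by
  unfold outer
  have : (∮ s in C(z0, ρ), (lam s + mu s) * (s - z)⁻¹) =
      (∮ s in C(z0, ρ), lam s * (s - z)⁻¹) + ∮ s in C(z0, ρ), mu s * (s - z)⁻¹ := by
    rw [← circleIntegral.integral_add ((cont_kernel h1 hz).circleIntegrable hρ)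
      ((cont_kernel h2 hz).circleIntegrable hρ)]
    refine circleIntegral.integral_congr hρ fun s _ => ?_
    simp only [add_mul]
  rw [this]
  ring

theorem outer_const_mul (c : ℂ) (z : ℂ) :
    outer z0 ρ (fun s => c * lam s) z = c * outer z0 ρ lam z := by
  unfold outer
  have : (∮ s in C(z0, ρ), c * lam s * (s - z)⁻¹) =
      c * ∮ s in C(z0, ρ), lam s * (s - z)⁻¹ := by
    rw [← circleIntegral.integral_const_mul]
    simp only [mul_assoc]
  rw [this]
  ring

theorem outer_neg (z : ℂ) :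
    outer z0 ρ (fun s => - lam s) z = - outer z0 ρ lam z := by
  have h := outer_const_mul (z0 := z0) (ρ := ρ) (lam := lam) (-1) z
  simpa using h

/-- bound of the outer part -/
theorem outer_bound (hρ : 0 < ρ) {C : ℝ} (hC : ∀ s ∈ sphere z0 ρ, ‖lam s‖ ≤ C) {z : ℂ} {d : ℝ}
    (hd : 0 < d) (hz : ρ + d ≤ ‖z - z0‖) : ‖outer z0 ρ lam z‖ ≤ ρ * C / d := by
  unfold outer
  rw [norm_neg, ← smul_eq_mul]
  have h := circleIntegral.norm_two_pi_i_inv_smul_integral_le_of_norm_le_const (c := z0) (R := ρ)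
    (f := fun s => lam s * (s - z)⁻¹) (C := C / d) hρ.le ?_
  · refine h.trans (le_of_eq ?_)
    ring
  · intro s hs
    rw [norm_mul, norm_inv, div_eq_mul_inv]
    have h1 : d ≤ ‖s - z‖ := by
      have h2 : ‖z - z0‖ ≤ ‖s - z‖ + ‖s - z0‖ := by
        have : z - z0 = (s - z0) - (s - z) := by ring
        rw [this]
        exact (norm_sub_le _ _).trans (by rw [add_comm])
      rw [mem_sphere_iff_norm.1 hs] at h2
      linarith
    have h3 : 0 ≤ C := (norm_nonneg _).trans (hC s hs)
    exact mul_le_mul (hC s hs) (inv_anti₀ hd h1) (inv_nonneg.2 (norm_nonneg _)) h3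

/-- the outer part of a function analytic inside is zero -/
theorem outer_inner (hρ : 0 < ρ) (h : DiffContOnCl ℂ lam (ball z0 ρ)) {z : ℂ}
    (hz : z ∉ closedBall z0 ρ) : outer z0 ρ lam z = 0 := by
  unfold outer
  have h1 : DiffContOnCl ℂ (fun s => lam s * (s - z)⁻¹) (ball z0 ρ) := by
    have h2 : DifferentiableOn ℂ (fun s : ℂ => (s - z)⁻¹) (closure (ball z0 ρ)) := by
      intro s hs
      have h3 : s - z ≠ 0 := by
        rw [sub_ne_zero]
        rintro rfl
        exact hz (closure_ball_subset_closedBall hs)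
      exact ((differentiableAt_id.sub_const z).inv h3).differentiableWithinAt
    exact h.smul h2.diffContOnCl
  rw [h1.circleIntegral_eq_zero hρ.le]
  simp

/-- outside the circle the integral of `1/(s-z)` is zero -/
theorem integral_inv_outside (hρ : 0 < ρ) {z : ℂ} (hz : z ∉ closedBall z0 ρ) :
    (∮ s in C(z0, ρ), (s - z)⁻¹) = 0 := by
  have h := outer_inner (lam := fun _ => 1) hρ diffContOnCl_const hz
  unfold outer at h
  simp only [one_mul] at h
  have h2 := neg_eq_zero.1 h
  rcases mul_eq_zero.1 h2 with h3 | h3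
  · exact absurd h3 (inv_ne_zero twoPiI_ne)
  · exact h3

/-- the outer part of a simple pole -/
theorem outer_pole (hρ : 0 < ρ) (b : ℂ) {z : ℂ} (hz : z ∉ closedBall z0 ρ) :
    outer z0 ρ (fun s => b * (s - z0)⁻¹) z = b * (z - z0)⁻¹ := by
  rw [outer_const_mul]
  congr 1
  unfold outer
  have hzz : z - z0 ≠ 0 := by
    rw [sub_ne_zero]
    rintro rfl
    exact hz (mem_closedBall_self hρ.le)
  have hne0 : ∀ s ∈ sphere z0 ρ, s - z0 ≠ 0 := by
    intro s hs h
    rw [mem_sphere_iff_norm, h, norm_zero] at hs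
    exact hρ.ne hs
  have hne : ∀ s ∈ sphere z0 ρ, s - z ≠ 0 := by
    intro s hs h
    rw [sub_eq_zero] at h
    exact hz (h ▸ sphere_subset_closedBall hs)
  have h1 : (∮ s in C(z0, ρ), (s - z0)⁻¹ * (s - z)⁻¹) =
      ∮ s in C(z0, ρ), ((z - z0)⁻¹ * ((s - z)⁻¹ - (s - z0)⁻¹)) := by
    refine circleIntegral.integral_congr hρ.le fun s hs => ?_
    have := hne0 s hs
    have := hne s hs
    field_simp
    ring
  have hc1 : ContinuousOn (fun s : ℂ => (s - z)⁻¹) (sphere z0 ρ) :=
    ContinuousOn.inv₀ (by fun_prop) hne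
  have hc2 : ContinuousOn (fun s : ℂ => (s - z0)⁻¹) (sphere z0 ρ) :=
    ContinuousOn.inv₀ (by fun_prop) hne0
  rw [h1, circleIntegral.integral_const_mul,
    circleIntegral.integral_sub (hc1.circleIntegrable hρ.le) (hc2.circleIntegrable hρ.le),
    integral_inv_outside hρ hz, circleIntegral.integral_sub_center_inv z0 hρ.ne', zero_sub]
  have := twoPiI_ne
  field_simp

/-- the outer part is Lipschitz -/
theorem outer_lip (hρ : 0 < ρ) (hlam : ContinuousOn lam (sphere z0 ρ)) {C : ℝ}
    (hC : ∀ s ∈ sphere z0 ρ, ‖lam s‖ ≤ C) {z w : ℂ} {d : ℝ}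
    (hd : 0 < d) (hz : ρ + d ≤ ‖z - z0‖) (hw : ρ + d ≤ ‖w - z0‖) :
    ‖outer z0 ρ lam z - outer z0 ρ lam w‖ ≤ ρ * C / d ^ 2 * ‖z - w‖ := by
  have hdist : ∀ v : ℂ, ρ + d ≤ ‖v - z0‖ → ∀ s ∈ sphere z0 ρ, d ≤ ‖s - v‖ := by
    intro v hv s hs
    have h2 : ‖v - z0‖ ≤ ‖s - v‖ + ‖s - z0‖ := by
      have : v - z0 = (s - z0) - (s - v) := by ring
      rw [this]
      exact (norm_sub_le _ _).trans (by rw [add_comm])
    rw [mem_sphere_iff_norm.1 hs] at h2
    linarith
  have hnot : ∀ v : ℂ, ρ + d ≤ ‖v - z0‖ → v ∉ closedBall z0 ρ := by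
    intro v hv h
    rw [mem_closedBall_iff_norm] at h
    linarith
  have h1 : outer z0 ρ lam z - outer z0 ρ lam w =
      -((2 * π * I : ℂ)⁻¹ • ∮ s in C(z0, ρ), lam s * ((s - z)⁻¹ * (s - w)⁻¹ * (z - w))) := by
    unfold outer
    have h2 : (∮ s in C(z0, ρ), lam s * ((s - z)⁻¹ * (s - w)⁻¹ * (z - w))) =
        (∮ s in C(z0, ρ), lam s * (s - z)⁻¹) - ∮ s in C(z0, ρ), lam s * (s - w)⁻¹ := by
      rw [← circleIntegral.integral_sub ((cont_kernel hlam (hnot z hz)).circleIntegrable hρ.le)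
        ((cont_kernel hlam (hnot w hw)).circleIntegrable hρ.le)]
      refine circleIntegral.integral_congr hρ.le fun s hs => ?_
      have h3 : s - z ≠ 0 := norm_pos_iff.1 (hd.trans_le (hdist z hz s hs))
      have h4 : s - w ≠ 0 := norm_pos_iff.1 (hd.trans_le (hdist w hw s hs))
      field_simp
      ring
    rw [h2, smul_eq_mul]
    ring
  rw [h1, norm_neg]
  have h := circleIntegral.norm_two_pi_i_inv_smul_integral_le_of_norm_le_const (c := z0) (R := ρ)
    (f := fun s => lam s * ((s - z)⁻¹ * (s - w)⁻¹ * (z - w))) (C := C / d ^ 2 * ‖z - w‖) hρ.le ?_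
  · refine h.trans (le_of_eq ?_)
    ring
  · intro s hs
    have h3 := hdist z hz s hs
    have h4 := hdist w hw s hs
    have hC0 : 0 ≤ C := (norm_nonneg _).trans (hC s hs)
    rw [norm_mul, norm_mul, norm_mul, norm_inv, norm_inv]
    have h5 : ‖s - z‖⁻¹ * ‖s - w‖⁻¹ ≤ (d ^ 2)⁻¹ := by
      rw [pow_two, mul_inv]
      exact mul_le_mul (inv_anti₀ hd h3) (inv_anti₀ hd h4) (inv_nonneg.2 (norm_nonneg _))
        (inv_nonneg.2 hd.le)
    calc ‖lam s‖ * (‖s - z‖⁻¹ * ‖s - w‖⁻¹ * ‖z - w‖)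
        ≤ C * ((d ^ 2)⁻¹ * ‖z - w‖) := by
          refine mul_le_mul (hC s hs) (mul_le_mul_of_nonneg_right h5 (norm_nonneg _)) ?_ hC0
          positivity
      _ = C / d ^ 2 * ‖z - w‖ := by ring

/-- derivative of the outer part -/
theorem outer_hasDerivAt (hlam : ContinuousOn lam (sphere z0 |ρ|)) {z : ℂ}
    (hz : z ∉ sphere z0 |ρ|) :
    HasDerivAt (outer z0 ρ lam)
      (-((2 * π * I : ℂ)⁻¹ * ∮ s in C(z0, ρ), lam s * ((s - z) ^ 2)⁻¹)) z := by
  have hU : IsOpen (sphere z0 |ρ|)ᶜ := isClosed_sphere.isOpen_compl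
  have hne : ∀ z ∈ (sphere z0 |ρ|)ᶜ, ∀ s ∈ sphere z0 |ρ|, s - z ≠ 0 := by
    intro z hz s hs h
    rw [sub_eq_zero] at h
    exact hz (h ▸ hs)
  have h := hasDerivAt_param (z0 := z0) (ρ := ρ) hU (fun z s => lam s * (s - z)⁻¹)
    (fun z s => lam s * ((s - z) ^ 2)⁻¹) (z := z) ?_ ?_ ?_ hz
  · exact (h.const_mul _).neg
  · intro z hz
    exact hlam.mul (ContinuousOn.inv₀ (by fun_prop) (hne z hz))
  · have h1 : ContinuousOn (fun p : ℂ × ℂ => lam p.2) ((sphere z0 |ρ|)ᶜ ×ˢ sphere z0 |ρ|) :=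
      hlam.comp continuousOn_snd fun p hp => hp.2
    refine h1.mul (ContinuousOn.inv₀ (by fun_prop) ?_)
    intro p hp
    exact pow_ne_zero 2 (hne p.1 hp.1 p.2 hp.2)
  · intro z hz s hs
    have h2 : HasDerivAt (fun z : ℂ => s - z) (-1) z := by
      simpa using (hasDerivAt_id z).const_sub s
    have h3 := (h2.inv (hne z hz s hs)).const_mul (lam s)
    exact h3.congr_deriv (by rw [neg_neg, one_div])

theorem outer_differentiableOn (hρ : 0 < ρ) (hlam : ContinuousOn lam (sphere z0 ρ)) :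
    DifferentiableOn ℂ (outer z0 ρ lam) (closedBall z0 ρ)ᶜ := by
  intro z hz
  rw [← abs_of_pos hρ] at hlam
  refine (outer_hasDerivAt hlam ?_).differentiableAt.differentiableWithinAt
  rw [abs_of_pos hρ]
  exact fun h => hz (sphere_subset_closedBall h)

/-- the inner part -/
noncomputable def inner' (z0 : ℂ) (ρ : ℝ) (lam : ℂ → ℂ) (z : ℂ) : ℂ := - outer z0 ρ lam z

theorem inner_differentiableOn (hρ : 0 < ρ) (hlam : ContinuousOn lam (sphere z0 ρ)) :
    DifferentiableOn ℂ (inner' z0 ρ lam) (ball z0 ρ) := by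
  intro z hz
  rw [← abs_of_pos hρ] at hlam
  refine ((outer_hasDerivAt hlam ?_).differentiableAt.neg).differentiableWithinAt
  rw [abs_of_pos hρ]
  intro h
  rw [mem_ball, mem_sphere.1 h] at hz
  exact lt_irrefl _ hz

/-- **Laurent splitting**: Cauchy's formula for an annulus -/
theorem inner_add_outer {ρ' : ℝ} (hρ : 0 < ρ) {g : ℂ → ℂ}
    (hg : ∀ s, ρ ≤ ‖s - z0‖ → ‖s - z0‖ ≤ ρ' → DifferentiableAt ℂ g s) {z : ℂ}
    (h1 : ρ < ‖z - z0‖) (h2 : ‖z - z0‖ < ρ') :
    inner' z0 ρ' g z + outer z0 ρ g z = g z := by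
  have hρ' : 0 < ρ' := hρ.trans (h1.trans h2)
  have hmem : ∀ s, s ∈ closedBall z0 ρ' \ ball z0 ρ → DifferentiableAt ℂ g s := by
    intro s hs
    refine hg s ?_ ?_
    · have := hs.2
      rw [mem_ball_iff_norm, not_lt] at this
      exact this
    · have := hs.1
      rwa [mem_closedBall_iff_norm] at this
  have hzb : z ∈ ball z0 ρ' := by rwa [mem_ball_iff_norm]
  have hzc : z ∉ closedBall z0 ρ := by
    rw [mem_closedBall_iff_norm, not_le]
    exact h1
  have hnhds : closedBall z0 ρ' \ ball z0 ρ ∈ 𝓝 z := by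
    have h3 : ball z0 ρ' \ closedBall z0 ρ ∈ 𝓝 z :=
      (isOpen_ball.sdiff isClosed_closedBall).mem_nhds ⟨hzb, hzc⟩
    exact mem_of_superset h3 (sdiff_subset_sdiff ball_subset_closedBall ball_subset_closedBall)
  have hcont : ContinuousOn (dslope g z) (closedBall z0 ρ' \ ball z0 ρ) :=
    (continuousOn_dslope hnhds).2
      ⟨fun s hs => (hmem s hs).continuousAt.continuousWithinAt, hmem z (mem_of_mem_nhds hnhds)⟩
  have hdiff : ∀ s ∈ (ball z0 ρ' \ closedBall z0 ρ) \ {z}, DifferentiableAt ℂ (dslope g z) s := by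
    intro s hs
    exact (differentiableAt_dslope_of_ne hs.2).2
      (hmem s (sdiff_subset_sdiff ball_subset_closedBall ball_subset_closedBall hs.1))
  have key := circleIntegral_eq_of_differentiable_on_annulus_off_countable hρ
    (h1.trans h2).le (countable_singleton z) hcont hdiff
  have hsph : sphere z0 ρ ⊆ closedBall z0 ρ' \ ball z0 ρ := by
    intro s hs
    refine ⟨?_, ?_⟩
    · rw [mem_closedBall, mem_sphere.1 hs]
      exact (h1.trans h2).le
    · rw [mem_ball, mem_sphere.1 hs]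
      exact lt_irrefl ρ
  have hsph' : sphere z0 ρ' ⊆ closedBall z0 ρ' \ ball z0 ρ := by
    intro s hs
    refine ⟨sphere_subset_closedBall hs, ?_⟩
    rw [mem_ball, mem_sphere.1 hs, not_lt]
    exact (h1.trans h2).le
  have hc : ContinuousOn g (sphere z0 ρ) := fun s hs =>
    (hmem s (hsph hs)).continuousAt.continuousWithinAt
  have hc' : ContinuousOn g (sphere z0 ρ') := fun s hs =>
    (hmem s (hsph' hs)).continuousAt.continuousWithinAt
  have hne : ∀ s ∈ sphere z0 ρ, s - z ≠ 0 := by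
    intro s hs h
    rw [sub_eq_zero] at h
    exact hzc (h ▸ sphere_subset_closedBall hs)
  have hne' : ∀ s ∈ sphere z0 ρ', s - z ≠ 0 := by
    intro s hs h
    rw [sub_eq_zero] at h
    rw [← h, mem_ball, mem_sphere.1 hs] at hzb
    exact lt_irrefl _ hzb
  have e1 : (∮ s in C(z0, ρ'), dslope g z s) =
      (∮ s in C(z0, ρ'), g s * (s - z)⁻¹) - g z * (2 * π * I) := by
    rw [← circleIntegral.integral_sub_inv_of_mem_ball hzb, ← circleIntegral.integral_const_mul,
      ← circleIntegral.integral_sub]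
    · refine circleIntegral.integral_congr hρ'.le fun s hs => ?_
      have h3 : s ≠ z := sub_ne_zero.1 (hne' s hs)
      simp only [dslope_of_ne g h3, slope_def_field]
      rw [← sub_mul, div_eq_mul_inv]
    · exact (hc'.mul (ContinuousOn.inv₀ (by fun_prop) hne')).circleIntegrable hρ'.le
    · exact (continuousOn_const.mul
        (ContinuousOn.inv₀ (by fun_prop) hne')).circleIntegrable hρ'.le
  have e2 : (∮ s in C(z0, ρ), dslope g z s) = ∮ s in C(z0, ρ), g s * (s - z)⁻¹ := by
    have h4 : (∮ s in C(z0, ρ), dslope g z s) =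
        (∮ s in C(z0, ρ), g s * (s - z)⁻¹) - g z * ∮ s in C(z0, ρ), (s - z)⁻¹ := by
      rw [← circleIntegral.integral_const_mul, ← circleIntegral.integral_sub]
      · refine circleIntegral.integral_congr hρ.le fun s hs => ?_
        have h3 : s ≠ z := sub_ne_zero.1 (hne s hs)
        simp only [dslope_of_ne g h3, slope_def_field]
        rw [← sub_mul, div_eq_mul_inv]
      · exact (cont_kernel hc hzc).circleIntegrable hρ.le
      · exact (continuousOn_const.mul
          (ContinuousOn.inv₀ (by fun_prop) hne)).circleIntegrable hρ.le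
    rw [h4, integral_inv_outside hρ hzc, mul_zero, sub_zero]
  rw [e1, e2] at key
  unfold inner' outer
  rw [← key]
  have := twoPiI_ne
  field_simp
  ring

/-- **Regular part.** If `g` is holomorphic on `D` minus a disc and close to a holomorphic function
`p` on the annulus, then `g` minus the outer part of `g - p` extends to `D`, and the extension is
close to `p` inside. -/
theorem regular_part {D : Set ℂ} (hD : IsOpen D) {ρ0 ρ' η : ℝ} {g p : ℂ → ℂ} (hρ : 0 < ρ)
    (h0 : ρ0 < ρ) (h1 : ρ < ρ') (hsub : closedBall z0 ρ' ⊆ D)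
    (hg : DifferentiableOn ℂ g (D \ closedBall z0 ρ0)) (hp : DifferentiableOn ℂ p D)
    (hη : ∀ s, ρ ≤ ‖s - z0‖ → ‖s - z0‖ ≤ ρ' → ‖g s - p s‖ ≤ η) :
    ∃ F : ℂ → ℂ, DifferentiableOn ℂ F D ∧
      (∀ z, ρ < ‖z - z0‖ → F z = g z - outer z0 ρ (fun s => g s - p s) z) ∧
      ∀ r, ρ < r → r < ρ' → ∀ z ∈ closedBall z0 r, ‖F z - p z‖ ≤ η * r / (r - ρ) := by
  classical
  set e : ℂ → ℂ := fun s => g s - p s with he
  have hann : ∀ s, ρ ≤ ‖s - z0‖ → ‖s - z0‖ ≤ ρ' → DifferentiableAt ℂ g s := by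
    intro s hs1 hs2
    have hopen : IsOpen (D \ closedBall z0 ρ0) := hD.sdiff isClosed_closedBall
    refine (hg s ⟨hsub (mem_closedBall_iff_norm.2 hs2), ?_⟩).differentiableAt
      (hopen.mem_nhds ⟨hsub (mem_closedBall_iff_norm.2 hs2), ?_⟩) <;>
    · rw [mem_closedBall_iff_norm, not_le]
      linarith
  have hpd : ∀ s ∈ D, DifferentiableAt ℂ p s := fun s hs =>
    (hp s hs).differentiableAt (hD.mem_nhds hs)
  have hed : ∀ s, ρ ≤ ‖s - z0‖ → ‖s - z0‖ ≤ ρ' → DifferentiableAt ℂ e s := by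
    intro s hs1 hs2
    exact (hann s hs1 hs2).sub (hpd s (hsub (mem_closedBall_iff_norm.2 hs2)))
  have hρ' : 0 < ρ' := hρ.trans h1
  have hec : ContinuousOn e (sphere z0 ρ) := by
    intro s hs
    rw [mem_sphere_iff_norm] at hs
    exact (hed s hs.ge (by linarith)).continuousAt.continuousWithinAt
  have hec' : ContinuousOn e (sphere z0 ρ') := by
    intro s hs
    rw [mem_sphere_iff_norm] at hs
    exact (hed s (by linarith) hs.le).continuousAt.continuousWithinAt
  let F : ℂ → ℂ := fun z =>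
    if ‖z - z0‖ < ρ' then p z + inner' z0 ρ' e z else g z - outer z0 ρ e z
  have hFout : ∀ z, ρ < ‖z - z0‖ → F z = g z - outer z0 ρ e z := by
    intro z hz
    by_cases hz' : ‖z - z0‖ < ρ'
    · have h2 := inner_add_outer hρ hed hz hz'
      simp only [F, hz', if_true]
      rw [show g z = e z + p z by simp only [he]; ring, ← h2]
      ring
    · simp only [F, hz', if_false]
  have hFd : DifferentiableOn ℂ F D := by
    intro z hz
    by_cases hz' : ‖z - z0‖ < ρ'
    · have h2 : DifferentiableAt ℂ (fun z => p z + inner' z0 ρ' e z) z := by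
        refine (hpd z hz).add ?_
        exact (inner_differentiableOn hρ' hec').differentiableAt
          (isOpen_ball.mem_nhds (mem_ball_iff_norm.2 hz'))
      refine (h2.congr_of_eventuallyEq ?_).differentiableWithinAt
      filter_upwards [isOpen_ball.mem_nhds (mem_ball_iff_norm.2 hz' : z ∈ ball z0 ρ')] with w hw
      rw [mem_ball_iff_norm] at hw
      simp only [F, hw, if_true]
    · have hz2 : ρ < ‖z - z0‖ := h1.trans_le (not_lt.1 hz')
      have hopen : IsOpen (D \ closedBall z0 ρ) := hD.sdiff isClosed_closedBall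
      have hzm : z ∈ D \ closedBall z0 ρ := by
        refine ⟨hz, ?_⟩
        rw [mem_closedBall_iff_norm, not_le]
        exact hz2
      have h2 : DifferentiableAt ℂ (fun z => g z - outer z0 ρ e z) z := by
        refine DifferentiableAt.sub ?_ ?_
        · refine (hg.mono ?_).differentiableAt (hopen.mem_nhds hzm)
          exact sdiff_subset_sdiff_right (closedBall_subset_closedBall h0.le)
        · exact (outer_differentiableOn hρ hec).differentiableAt
            (isClosed_closedBall.isOpen_compl.mem_nhds hzm.2)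
      refine (h2.congr_of_eventuallyEq ?_).differentiableWithinAt
      filter_upwards [hopen.mem_nhds hzm] with w hw
      refine hFout w ?_
      have := hw.2
      rwa [mem_closedBall_iff_norm, not_le] at this
  refine ⟨F, hFd, hFout, ?_⟩
  intro r hr hr' z hz
  have hr0 : 0 < r := hρ.trans hr
  have hsubr : closedBall z0 r ⊆ D := (closedBall_subset_closedBall hr'.le).trans hsub
  have hcl : DiffContOnCl ℂ (fun z => F z - p z) (ball z0 r) := by
    refine DifferentiableOn.diffContOnCl ?_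
    rw [closure_ball z0 hr0.ne']
    exact (hFd.sub hp).mono hsubr
  refine Complex.norm_le_of_forall_mem_frontier_norm_le isBounded_ball hcl ?_
    (by rwa [closure_ball z0 hr0.ne'])
  intro w hw
  rw [frontier_ball z0 hr0.ne', mem_sphere_iff_norm] at hw
  have h2 : F w - p w = e w - outer z0 ρ e w := by
    rw [hFout w (by rw [hw]; exact hr)]
    simp only [he]
    ring
  rw [h2]
  have h3 : ‖e w‖ ≤ η := hη w (by linarith) (by linarith)
  have h4 : ‖outer z0 ρ e w‖ ≤ ρ * η / (r - ρ) := by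
    refine outer_bound hρ ?_ (by linarith) (by rw [hw]; linarith)
    intro s hs
    rw [mem_sphere_iff_norm] at hs
    exact hη s hs.ge (by linarith)
  calc ‖e w - outer z0 ρ e w‖ ≤ ‖e w‖ + ‖outer z0 ρ e w‖ := norm_sub_le _ _
    _ ≤ η + ρ * η / (r - ρ) := add_le_add h3 h4
    _ = η * r / (r - ρ) := by
      have : r - ρ ≠ 0 := by linarith
      field_simp
      ring

end

end Pool.Agent.Helper81.CK
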