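import Pool.Agent.Helper5.CK.Defs

/-!
# CK V7: the variation field is holomorphic at the pole

`(z - p) VV z` is holomorphic near `p` and vanishes at `p`.
-/

set_option autoImplicit false

namespace Pool.Agent.Helper81.CK

open Complex Metric Set Filter Topology
open scoped ComplexConjugate
open Pool.Agent.Helper39.Area Pool.Agent.Helper5.CK

theorem dphi_ne {β : ℂ → ℂ} (h : Ext β) {p : ℂ} (hp : p ∈ ball (0 : ℂ) 1) (hp0 : p ≠ 0) :
    dphi β p ≠ 0 := by
  have h1 := h.ne p hp
  have h2 : dphi β p = -(1 - p ^ 2 * deriv β p) / p ^ 2 := by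
    unfold dphi
    field_simp
    ring
  rw [h2]
  exact div_ne_zero (neg_ne_zero.2 h1) (pow_ne_zero 2 hp0)

theorem phi_differentiableOn {β : ℂ → ℂ} (h : Ext β) :
    DifferentiableOn ℂ (phi β) (ball 0 1 \ {0}) := fun _ hz =>
  (hasDerivAt_phi h.diff hz.1 hz.2).differentiableAt.differentiableWithinAt

theorem dphi_differentiableOn {β : ℂ → ℂ} (h : Ext β) :
    DifferentiableOn ℂ (dphi β) (ball 0 1 \ {0}) := by
  intro z hz
  have h1 : DifferentiableAt ℂ (deriv β) z :=
    (h.diff.deriv isOpen_ball).differentiableAt (isOpen_ball.mem_nhds hz.1)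
  have h2 : DifferentiableAt ℂ (fun z : ℂ => -(z ^ 2)⁻¹) z :=
    ((differentiableAt_id.pow 2).inv (pow_ne_zero 2 hz.2)).neg
  exact (h2.add h1).differentiableWithinAt

/-- the variation field extends holomorphically to the pole -/
theorem reg_ext {β : ℂ → ℂ} (h : Ext β) {p : ℂ} (hp : p ∈ ball (0 : ℂ) 1) (hp0 : p ≠ 0) (τ : ℂ) :
    ∃ V : ℂ → ℂ, DifferentiableOn ℂ V (ball 0 1 \ {0}) ∧
      ∀ z ∈ ball (0 : ℂ) 1 \ {0}, z ≠ p → V z = VV β p τ z := by
  have hUo : IsOpen (ball (0 : ℂ) 1 \ {0}) := isOpen_ball.sdiff isClosed_singleton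
  have hpU : p ∈ ball (0 : ℂ) 1 \ {0} := ⟨hp, hp0⟩
  have hUn : ball (0 : ℂ) 1 \ {0} ∈ 𝓝 p := hUo.mem_nhds hpU
  set Q : ℂ → ℂ := dslope (phi β) p with hQ
  have hQd : DifferentiableOn ℂ Q (ball 0 1 \ {0}) :=
    (Complex.differentiableOn_dslope hUn).2 (phi_differentiableOn h)
  have hQne : ∀ z ∈ ball (0 : ℂ) 1 \ {0}, Q z ≠ 0 := by
    intro z hz
    by_cases hzp : z = p
    · rw [hzp, hQ, dslope_same, (hasDerivAt_phi h.diff hp hp0).deriv]
      exact dphi_ne h hp hp0
    · rw [hQ, dslope_of_ne _ hzp, slope_def_field]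
      refine div_ne_zero ?_ (sub_ne_zero.2 hzp)
      intro h0
      exact hzp (h.inj z p hz.1 hp hz.2 hp0 (sub_eq_zero.1 h0))
  set N : ℂ → ℂ := fun z => eps β p τ / Q z + dphi β z * (z * ((1 / 2) *
    (τ * (z + p) - (z - p) * (conj τ * ((1 + conj p * z) / (1 - conj p * z)))))) with hN
  have hden : ∀ z ∈ ball (0 : ℂ) 1 \ {0}, 1 - conj p * z ≠ 0 := by
    intro z hz h0
    have h1 : ‖conj p * z‖ < 1 := by
      rw [norm_mul, RCLike.norm_conj]
      have h2 := mem_ball_zero_iff.1 hp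
      have h3 := mem_ball_zero_iff.1 hz.1
      nlinarith [norm_nonneg p, norm_nonneg z]
    rw [← sub_eq_zero.1 h0, norm_one] at h1
    exact lt_irrefl _ h1
  have hNd : DifferentiableOn ℂ N (ball 0 1 \ {0}) := by
    intro z hz
    refine DifferentiableWithinAt.add ?_ ?_
    · exact (differentiableWithinAt_const _).div (hQd z hz) (hQne z hz)
    · refine (dphi_differentiableOn h z hz).mul ?_
      refine DifferentiableAt.differentiableWithinAt ?_
      have h1 : DifferentiableAt ℂ (fun z : ℂ => (1 + conj p * z) / (1 - conj p * z)) z :=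
        DifferentiableAt.div (by fun_prop) (by fun_prop) (hden z hz)
      fun_prop
  have hNp : N p = 0 := by
    simp only [hN, hQ, dslope_same, (hasDerivAt_phi h.diff hp hp0).deriv, sub_self, zero_mul,
      sub_zero, eps]
    have := dphi_ne h hp hp0
    field_simp
    ring
  refine ⟨dslope N p, (Complex.differentiableOn_dslope hUn).2 hNd, ?_⟩
  intro z hz hzp
  have hzp' : z - p ≠ 0 := sub_ne_zero.2 hzp
  rw [dslope_of_ne _ hzp, slope_def_field, hNp, sub_zero]
  have hQz : Q z = (phi β z - phi β p) / (z - p) := by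
    rw [hQ, dslope_of_ne _ hzp, slope_def_field]
  have hphi : phi β z - phi β p ≠ 0 := by
    intro h0
    exact hzp (h.inj z p hz.1 hp hz.2 hp0 (sub_eq_zero.1 h0))
  have hd := hden z hz
  simp only [hN, hQz, VV, hh]
  field_simp

end Pool.Agent.Helper81.CK
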